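import Mathlib

set_option autoImplicit false

namespace Pool.Agent.Results.MP_5e4462_co.ArcBound

variable {V : Type} [Fintype V] [DecidableEq V]

/-- The digraph with arc set `A` is strongly connected. -/
def Strong (A : Finset (V × V)) : Prop :=
  ∀ u v : V, Relation.ReflTransGen (fun x y => (x, y) ∈ A) u v

/-- The underlying simple graph. -/
def Und (A : Finset (V × V)) : SimpleGraph V where
  Adj x y := x ≠ y ∧ ((x, y) ∈ A ∨ (y, x) ∈ A)
  symm := ⟨fun _ _ h => ⟨h.1.symm, h.2.symm⟩⟩
  loopless := ⟨fun _ h => h.1 rfl⟩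

/-- `w` is an articulation point of the underlying graph: deleting it disconnects the graph. -/
def Articulation (A : Finset (V × V)) (w : V) : Prop :=
  ¬ ((Und A).induce {w}ᶜ).Preconnected

/-- Strongly biconnected digraphs. -/
def StronglyBiconnected (A : Finset (V × V)) : Prop :=
  Strong A ∧ ∀ w : V, ¬ Articulation A w

/-- Minimal strongly biconnected digraphs. -/
def MinimalSB (A : Finset (V × V)) : Prop :=
  StronglyBiconnected A ∧ ∀ e ∈ A, ¬ StronglyBiconnected (A.erase e)

/-- Reachability in the underlying graph avoiding `w`. -/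
def R (A : Finset (V × V)) (w : V) : V → V → Prop :=
  Relation.ReflTransGen (fun a b => a ≠ w ∧ b ≠ w ∧ ((a, b) ∈ A ∨ (b, a) ∈ A))

theorem R_symm (A : Finset (V × V)) (w : V) {x y : V} (h : R A w x y) : R A w y x := by
  unfold R at h ⊢
  induction h with
  | refl => exact Relation.ReflTransGen.refl
  | tail _ hbc ih => exact Relation.ReflTransGen.head ⟨hbc.2.1, hbc.1, hbc.2.2.symm⟩ ih

theorem R_mono {A B : Finset (V × V)} (hAB : A ⊆ B) (w : V) {x y : V} (h : R A w x y) :
    R B w x y := by
  exact Relation.ReflTransGen.mono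
    (fun a b h => ⟨h.1, h.2.1, h.2.2.imp (fun h => hAB h) (fun h => hAB h)⟩) _ _ h

omit [Fintype V] in
theorem bic_iff (A : Finset (V × V)) (hl : ∀ v, (v, v) ∉ A) (w : V) :
    ¬ Articulation A w ↔ ∀ x y : V, x ≠ w → y ≠ w → R A w x y := by
  unfold Articulation
  rw [not_not]
  constructor
  · intro h x y hx hy
    have h1 := h ⟨x, hx⟩ ⟨y, hy⟩
    rw [SimpleGraph.reachable_iff_reflTransGen] at h1
    have key : ∀ z : ({w}ᶜ : Set V),
        Relation.ReflTransGen ((Und A).induce {w}ᶜ).Adj ⟨x, hx⟩ z → R A w x z.1 := by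
      intro z hz
      induction hz with
      | refl => exact Relation.ReflTransGen.refl
      | @tail b c _ hbc ih => exact ih.tail ⟨b.2, c.2, hbc.2⟩
    exact key _ h1
  · intro h x y
    have h1 := h x.1 y.1 x.2 y.2
    have key : ∀ z : V, R A w x.1 z → ∀ hz : z ≠ w,
        ((Und A).induce ({w}ᶜ : Set V)).Reachable x ⟨z, hz⟩ := by
      intro z hz
      induction hz with
      | refl => intro _; exact SimpleGraph.Reachable.refl _
      | @tail b c _ hbc ih =>
        intro hc
        refine (ih hbc.1).trans (SimpleGraph.Adj.reachable ?_)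
        refine ⟨?_, hbc.2.2⟩
        intro hbc'
        change b = c at hbc'
        rcases hbc.2.2 with h | h
        · exact hl _ (hbc' ▸ h)
        · exact hl _ (hbc' ▸ h)
    exact key y.1 h1 y.2

omit [Fintype V] [DecidableEq V] in
/-- A chain can be made injective. -/
theorem exists_inj_path {r : V → V → Prop} {a b : V} (h : Relation.ReflTransGen r a b) :
    ∃ (L : ℕ) (p : ℕ → V), p 0 = a ∧ p L = b ∧ (∀ j < L, r (p j) (p (j + 1))) ∧
      ∀ i j, i ≤ L → j ≤ L → p i = p j → i = j := by
  classical
  have hex : ∃ L : ℕ, ∃ p : ℕ → V, p 0 = a ∧ p L = b ∧ ∀ j < L, r (p j) (p (j + 1)) := by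
    induction h with
    | refl => exact ⟨0, fun _ => a, rfl, rfl, fun j hj => absurd hj (Nat.not_lt_zero _)⟩
    | @tail b c _ hbc ih =>
      obtain ⟨L, p, h0, h1, h2⟩ := ih
      refine ⟨L + 1, fun j => if j ≤ L then p j else c, by simp [h0], by simp, ?_⟩
      intro j hj
      by_cases hj' : j < L
      · simp only [hj'.le, if_true, Nat.succ_le_of_lt hj', ↓reduceIte]
        exact h2 j hj'
      · have : j = L := by omega
        subst this
        simp [h1, hbc]
  obtain ⟨p, h0, h1, h2⟩ := Nat.find_spec hex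
  refine ⟨Nat.find hex, p, h0, h1, h2, ?_⟩
  set L := Nat.find hex with hL
  have key : ∀ i j, i ≤ L → j ≤ L → i < j → p i ≠ p j := by
    intro i j hi hj hij heq
    refine Nat.find_min hex (m := L - (j - i)) (by omega) ?_
    refine ⟨fun k => if k ≤ i then p k else p (k + (j - i)), by simp [h0], ?_, ?_⟩
    · by_cases hLj : j = L
      · subst hLj
        have : L - (L - i) = i := by omega
        simp [this, heq, h1]
      · have h3 : ¬ (L - (j - i) ≤ i) := by omega
        have h4 : L - (j - i) + (j - i) = L := by omega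
        simp [h3, h4, h1]
    · intro k hk
      by_cases hki : k < i
      · simp only [hki.le, if_true, Nat.succ_le_of_lt hki, ↓reduceIte]
        exact h2 k (by omega)
      · by_cases hki' : k = i
        · subst hki'
          simp only [le_refl, if_true, Nat.not_succ_le_self, if_false, ↓reduceIte]
          rw [heq]
          have := h2 j (by omega)
          have e : k + 1 + (j - k) = j + 1 := by omega
          rw [e]
          exact this
        · have h3 : ¬ (k ≤ i) := by omega
          have h4 : ¬ (k + 1 ≤ i) := by omega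
          simp only [h3, h4, if_false, ↓reduceIte]
          have e : k + 1 + (j - i) = k + (j - i) + 1 := by omega
          rw [e]
          exact h2 _ (by omega)
  intro i j hi hj heq
  by_contra hne
  rcases lt_or_gt_of_ne hne with h | h
  · exact key i j hi hj h heq
  · exact key j i hj hi h heq.symm

/-- The vertices after adding an ear. -/
def W' (W : Finset V) (L : ℕ) (p : ℕ → V) : Finset V := W ∪ (Finset.Ioo 0 L).image p

/-- The arcs after adding an ear. -/
def B' (B : Finset (V × V)) (L : ℕ) (p : ℕ → V) : Finset (V × V) :=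
  B ∪ (Finset.range L).image (fun j => (p j, p (j + 1)))

omit [Fintype V] in
theorem card_W' (W : Finset V) (L : ℕ) (p : ℕ → V) (hint : ∀ j, 0 < j → j < L → p j ∉ W)
    (hinj : ∀ i j, i ≤ L → j ≤ L → p i = p j → i = j) : (W' W L p).card = W.card + (L - 1) := by
  unfold W'
  rw [Finset.card_union_of_disjoint, Finset.card_image_of_injOn]
  · simp
  · intro i hi j hj hij
    simp only [Finset.coe_Ioo, Set.mem_Ioo] at hi hj
    exact hinj i j hi.2.le hj.2.le hij
  · rw [Finset.disjoint_left]
    intro x hx hx'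
    simp only [Finset.mem_image, Finset.mem_Ioo] at hx'
    obtain ⟨j, hj, rfl⟩ := hx'
    exact hint j hj.1 hj.2 hx

omit [Fintype V] in
theorem card_B' (B : Finset (V × V)) (L : ℕ) (p : ℕ → V) : (B' B L p).card ≤ B.card + L := by
  unfold B'
  refine (Finset.card_union_le _ _).trans (Nat.add_le_add_left ?_ _)
  exact Finset.card_image_le.trans (by simp)

omit [Fintype V] in
theorem arc_mem (B : Finset (V × V)) (L : ℕ) (p : ℕ → V) (j : ℕ) (hj : j < L) :
    (p j, p (j + 1)) ∈ B' B L p := by
  unfold B'
  exact Finset.mem_union_right _ (Finset.mem_image_of_mem _ (Finset.mem_range.2 hj))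

omit [Fintype V] in
theorem path_dir (B : Finset (V × V)) (L : ℕ) (p : ℕ → V) (a : ℕ) (k : ℕ) (hk : a + k ≤ L) :
    Relation.ReflTransGen (fun x y => (x, y) ∈ B' B L p) (p a) (p (a + k)) := by
  induction k with
  | zero => exact Relation.ReflTransGen.refl
  | succ k ih => exact (ih (by omega)).tail (arc_mem B L p (a + k) (by omega))

theorem path_und (B : Finset (V × V)) (L : ℕ) (p : ℕ → V) (w : V) (a : ℕ) (k : ℕ)
    (hk : a + k ≤ L) (hw : ∀ i, a ≤ i → i ≤ a + k → p i ≠ w) :
    R (B' B L p) w (p a) (p (a + k)) := by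
  induction k with
  | zero => exact Relation.ReflTransGen.refl
  | succ k ih =>
    refine (ih (by omega) (fun i h1 h2 => hw i h1 (by omega))).tail
      ⟨hw _ (by omega) (by omega), hw _ (by omega) (by omega), Or.inl ?_⟩
    exact arc_mem B L p (a + k) (by omega)

theorem ext_bic (W : Finset V) (B : Finset (V × V)) (L : ℕ) (p : ℕ → V)
    (h0 : p 0 ∈ W) (hL : p L ∈ W) (hint : ∀ j, 0 < j → j < L → p j ∉ W)
    (hinj : ∀ i j, i ≤ L → j ≤ L → p i = p j → i = j)
    (hb : ∀ w, ∀ x ∈ W, ∀ y ∈ W, x ≠ w → y ≠ w → R B w x y) :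
    ∀ w, ∀ x ∈ W' W L p, ∀ y ∈ W' W L p, x ≠ w → y ≠ w → R (B' B L p) w x y := by
  intro w
  have key : ∀ x ∈ W' W L p, x ≠ w → ∃ y ∈ W, y ≠ w ∧ R (B' B L p) w x y := by
    intro x hx hxw
    unfold W' at hx
    rw [Finset.mem_union] at hx
    rcases hx with hx | hx
    · exact ⟨x, hx, hxw, Relation.ReflTransGen.refl⟩
    · simp only [Finset.mem_image, Finset.mem_Ioo] at hx
      obtain ⟨j, ⟨hj0, hjL⟩, rfl⟩ := hx
      by_cases hc : ∀ i, i ≤ j → p i ≠ w
      · refine ⟨p 0, h0, hc 0 (Nat.zero_le _), ?_⟩
        have := path_und B L p w 0 j (by omega) (fun i _ h => hc i (by omega))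
        rw [Nat.zero_add] at this
        exact R_symm _ _ this
      · push Not at hc
        obtain ⟨i, hi, rfl⟩ := hc
        have hij : i < j := by
          rcases Nat.lt_or_ge i j with h | h
          · exact h
          · exact absurd (by rw [le_antisymm hi h]) hxw
        have hne : ∀ k, j ≤ k → k ≤ L → p k ≠ p i := by
          intro k hk1 hk2 h
          have := hinj k i hk2 (by omega) h
          omega
        refine ⟨p L, hL, hne L (by omega) le_rfl, ?_⟩
        have := path_und B L p (p i) j (L - j) (by omega)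
          (fun k h1 h2 => hne k h1 (by omega))
        rw [Nat.add_sub_cancel' hjL.le] at this
        exact this
  intro x hx y hy hxw hyw
  obtain ⟨x', hx', hxw', h1⟩ := key x hx hxw
  obtain ⟨y', hy', hyw', h2⟩ := key y hy hyw
  exact h1.trans ((R_mono Finset.subset_union_left w (hb w x' hx' y' hy' hxw' hyw')).trans
    (R_symm _ _ h2))

/-- The invariant. -/
structure Good (A : Finset (V × V)) (h : V) (W : Finset V) (B : Finset (V × V)) : Prop where
  sub : B ⊆ A
  hub : h ∈ W
  str : ∀ x ∈ W, Relation.ReflTransGen (fun x y => (x, y) ∈ B) x h ∧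
    Relation.ReflTransGen (fun x y => (x, y) ∈ B) h x
  bic : ∀ w, ∀ x ∈ W, ∀ y ∈ W, x ≠ w → y ≠ w → R B w x y
  two : 2 ≤ W.card
  cnt : B.card + 2 ≤ 2 * W.card

theorem rtg_mono {A B : Finset (V × V)} (hAB : A ⊆ B) {x y : V}
    (h : Relation.ReflTransGen (fun x y => (x, y) ∈ A) x y) :
    Relation.ReflTransGen (fun x y => (x, y) ∈ B) x y :=
  Relation.ReflTransGen.mono (fun _ _ h => hAB h) _ _ h

theorem extend (A : Finset (V × V)) (h : V) (W : Finset V) (B : Finset (V × V))
    (g : Good A h W B) (L : ℕ) (p : ℕ → V) (hL2 : 2 ≤ L)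
    (h0 : p 0 ∈ W) (hL : p L ∈ W) (hint : ∀ j, 0 < j → j < L → p j ∉ W)
    (hinj : ∀ i j, i ≤ L → j ≤ L → p i = p j → i = j)
    (harc : ∀ j < L, (p j, p (j + 1)) ∈ A) : Good A h (W' W L p) (B' B L p) := by
  have hsub : B ⊆ B' B L p := Finset.subset_union_left
  refine ⟨?_, ?_, ?_, ext_bic W B L p h0 hL hint hinj g.bic, ?_, ?_⟩
  · unfold B'
    refine Finset.union_subset g.sub ?_
    intro e he
    simp only [Finset.mem_image, Finset.mem_range] at he
    obtain ⟨j, hj, rfl⟩ := he
    exact harc j hj
  · exact Finset.mem_union_left _ g.hub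
  · intro x hx
    unfold W' at hx
    rw [Finset.mem_union] at hx
    rcases hx with hx | hx
    · exact ⟨rtg_mono hsub (g.str x hx).1, rtg_mono hsub (g.str x hx).2⟩
    · simp only [Finset.mem_image, Finset.mem_Ioo] at hx
      obtain ⟨j, ⟨hj0, hjL⟩, rfl⟩ := hx
      constructor
      · have := path_dir B L p j (L - j) (by omega)
        rw [Nat.add_sub_cancel' hjL.le] at this
        exact this.trans (rtg_mono hsub (g.str _ hL).1)
      · have := path_dir B L p 0 j (by omega)
        rw [Nat.zero_add] at this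
        exact (rtg_mono hsub (g.str _ h0).2).trans this
  · rw [card_W' W L p hint hinj]
    have := g.two
    omega
  · rw [card_W' W L p hint hinj]
    have h1 := card_B' B L p
    have h2 := g.cnt
    omega

theorem exists_ear (A : Finset (V × V)) (hS : Strong A)
    (hb : ∀ w, ∀ x y : V, x ≠ w → y ≠ w → R A w x y) (W : Finset V) (h2 : 2 ≤ W.card)
    (hW : W ≠ Finset.univ) :
    ∃ (L : ℕ) (p : ℕ → V), 2 ≤ L ∧ p 0 ∈ W ∧ p L ∈ W ∧ (∀ j, 0 < j → j < L → p j ∉ W) ∧
      (∀ i j, i ≤ L → j ≤ L → p i = p j → i = j) ∧ (∀ j < L, (p j, p (j + 1)) ∈ A) := by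
  obtain ⟨w0, hw0⟩ : ∃ w, w ∉ W := by
    by_contra hc
    push Not at hc
    exact hW (Finset.eq_univ_iff_forall.2 hc)
  obtain ⟨h, hh⟩ : W.Nonempty := Finset.card_pos.1 (by omega)
  set s : V → V → Prop := fun x y => (x, y) ∈ A ∧ y ∉ W with hs
  have hin : ∀ y, y ∉ W → ∃ i ∈ W, Relation.ReflTransGen s i y := by
    intro y
    induction hS h y with
    | refl => intro hy; exact absurd hh hy
    | @tail b c _ hbc ih =>
      intro hc
      by_cases hbW : b ∈ W
      · exact ⟨b, hbW, Relation.ReflTransGen.single ⟨hbc, hc⟩⟩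
      · obtain ⟨i, hi, hib⟩ := ih hbW
        exact ⟨i, hi, hib.tail ⟨hbc, hc⟩⟩
  have hout : ∀ x, x ∉ W → ∃ o ∈ W, ∃ z, z ∉ W ∧ Relation.ReflTransGen s x z ∧ (z, o) ∈ A := by
    intro x
    have := hS x h
    induction this using Relation.ReflTransGen.head_induction_on with
    | refl => intro hy; exact absurd hh hy
    | @head b c hbc _ ih =>
      intro hb
      by_cases hcW : c ∈ W
      · exact ⟨c, hcW, b, hb, Relation.ReflTransGen.refl, hbc⟩
      · obtain ⟨o, ho, z, hz, hcz, hzo⟩ := ih hcW
        exact ⟨o, ho, z, hz, Relation.ReflTransGen.head ⟨hbc, hcW⟩ hcz, hzo⟩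
  -- either there is an open ear or all attachments agree
  by_cases hear : ∃ i ∈ W, ∃ o ∈ W, i ≠ o ∧ ∃ z, z ∉ W ∧ Relation.ReflTransGen s i z ∧
      (z, o) ∈ A
  · obtain ⟨i, hi, o, ho, hio, z, hz, hiz, hzo⟩ := hear
    set t : V → V → Prop := fun x y => (x, y) ∈ A ∧
      ((x = i ∧ y ∉ W) ∨ (x ∉ W ∧ (y ∉ W ∨ y = o))) with ht
    have h1 : Relation.ReflTransGen t i z := by
      clear hzo hz
      induction hiz with
      | refl => exact Relation.ReflTransGen.refl
      | @tail b c hib hbc ih =>
        refine ih.tail ⟨hbc.1, ?_⟩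
        by_cases hbi : b = i
        · exact Or.inl ⟨hbi, hbc.2⟩
        · refine Or.inr ⟨?_, Or.inl hbc.2⟩
          rcases Relation.ReflTransGen.cases_tail hib with h | ⟨c', _, h⟩
          · exact absurd h hbi
          · exact h.2
    have h2 : Relation.ReflTransGen t i o := h1.tail ⟨hzo, Or.inr ⟨hz, Or.inr rfl⟩⟩
    obtain ⟨L, p, hp0, hpL, hst, hinj⟩ := exists_inj_path h2
    have hL : 2 ≤ L := by
      rcases Nat.lt_or_ge L 2 with hlt | hge
      · interval_cases L
        · exact absurd (hp0.symm.trans hpL) hio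
        · have := (hst 0 (by omega)).2
          rw [zero_add, hp0, hpL] at this
          rcases this with h | h
          · exact absurd ho h.2
          · exact absurd hi h.1
      · exact hge
    refine ⟨L, p, hL, hp0 ▸ hi, hpL ▸ ho, ?_, hinj, fun j hj => (hst j hj).1⟩
    intro j hj0 hjL
    obtain ⟨k, rfl⟩ : ∃ k, j = k + 1 := ⟨j - 1, by omega⟩
    rcases (hst k (by omega)).2 with h | h
    · exact h.2
    · rcases h.2 with h | h
      · exact h
      · have := hinj (k + 1) L hjL.le le_rfl (h.trans hpL.symm)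
        omega
  · exfalso
    push Not at hear
    obtain ⟨k, hk, hkw⟩ := hin w0 hw0
    obtain ⟨x, hx, hxk⟩ : ∃ x ∈ W, x ≠ k := Finset.exists_mem_ne (by omega) k
    have hne : w0 ≠ k := fun h => hw0 (h ▸ hk)
    have hout2 : ∀ y, y ∉ W → Relation.ReflTransGen s k y → ∃ z, z ∉ W ∧
        Relation.ReflTransGen s y z ∧ (z, k) ∈ A := by
      intro y hy hky
      obtain ⟨o, ho, z, hz, hyz, hzo⟩ := hout y hy
      by_cases hko : k = o
      · subst hko; exact ⟨z, hz, hyz, hzo⟩
      · exact absurd hzo (hear k hk o ho hko z hz (hky.trans hyz))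
    have key : ∀ y, R A k w0 y → y ∉ W ∧ Relation.ReflTransGen s k y := by
      intro y hy
      induction hy with
      | refl => exact ⟨hw0, hkw⟩
      | @tail b c _ hbc ih =>
        obtain ⟨hbW, hkb⟩ := ih
        obtain ⟨hbk, hck, hadj⟩ := hbc
        rcases hadj with hadj | hadj
        · have hcW : c ∉ W := by
            intro hcW
            exact hear k hk c hcW (Ne.symm hck) b hbW hkb hadj
          exact ⟨hcW, hkb.tail ⟨hadj, hcW⟩⟩
        · obtain ⟨z, hz, hbz, hzk⟩ := hout2 b hbW hkb
          have hcW : c ∉ W := by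
            intro hcW
            exact hear c hcW k hk hck z hz
              ((Relation.ReflTransGen.single ⟨hadj, hbW⟩).trans hbz) hzk
          obtain ⟨i, hi, hic⟩ := hin c hcW
          have hik : i = k := by
            by_contra hne
            exact hear i hi k hk hne z hz
              ((hic.tail ⟨hadj, hbW⟩).trans hbz) hzk
          exact ⟨hcW, hik ▸ hic⟩
    exact (key x (hb k w0 x hne hxk)).1 hx

theorem start (A : Finset (V × V)) (hl : ∀ v, (v, v) ∉ A) (hS : Strong A)
    (hn : 2 ≤ Fintype.card V) : ∃ h W B, Good A h W B := by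
  obtain ⟨a, b, hab⟩ := Fintype.exists_pair_of_one_lt_card (by omega : 1 < Fintype.card V)
  obtain ⟨u, v, huv⟩ : ∃ u v, (u, v) ∈ A := by
    rcases Relation.ReflTransGen.cases_head (hS a b) with h | ⟨c, h, _⟩
    · exact absurd h hab
    · exact ⟨a, c, h⟩
  have hne : u ≠ v := by rintro rfl; exact hl _ huv
  obtain ⟨L, p, hp0, hpL, hst, hinj⟩ := exists_inj_path (hS v u)
  have hL1 : 1 ≤ L := by
    rcases Nat.eq_zero_or_pos L with h | h
    · subst h; exact absurd (hpL.symm.trans hp0) hne
    · exact h
  have hint : ∀ j, 0 < j → j < L → p j ∉ ({u, v} : Finset V) := by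
    intro j h0 hL hmem
    simp only [Finset.mem_insert, Finset.mem_singleton] at hmem
    rcases hmem with h | h
    · have := hinj j L hL.le le_rfl (h.trans hpL.symm); omega
    · have := hinj j 0 hL.le (Nat.zero_le _) (h.trans hp0.symm); omega
  have hsub : ({(u, v)} : Finset (V × V)) ⊆ B' {(u, v)} L p := Finset.subset_union_left
  refine ⟨u, W' {u, v} L p, B' {(u, v)} L p, ?_, ?_, ?_, ?_, ?_, ?_⟩
  · unfold B'
    refine Finset.union_subset (by simpa using huv) ?_
    intro e he
    simp only [Finset.mem_image, Finset.mem_range] at he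
    obtain ⟨j, hj, rfl⟩ := he
    exact hst j hj
  · exact Finset.mem_union_left _ (by simp)
  · have hvu : Relation.ReflTransGen (fun x y => (x, y) ∈ B' {(u, v)} L p) v u := by
      have := path_dir {(u, v)} L p 0 L (by omega)
      rwa [Nat.zero_add, hp0, hpL] at this
    have huv' : Relation.ReflTransGen (fun x y => (x, y) ∈ B' {(u, v)} L p) u v :=
      Relation.ReflTransGen.single (hsub (by simp))
    intro x hx
    unfold W' at hx
    rw [Finset.mem_union] at hx
    rcases hx with hx | hx
    · simp only [Finset.mem_insert, Finset.mem_singleton] at hx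
      rcases hx with rfl | rfl
      · exact ⟨Relation.ReflTransGen.refl, Relation.ReflTransGen.refl⟩
      · exact ⟨hvu, huv'⟩
    · simp only [Finset.mem_image, Finset.mem_Ioo] at hx
      obtain ⟨j, ⟨hj0, hjL⟩, rfl⟩ := hx
      constructor
      · have := path_dir {(u, v)} L p j (L - j) (by omega)
        rwa [Nat.add_sub_cancel' hjL.le, hpL] at this
      · have := path_dir {(u, v)} L p 0 j (by omega)
        rw [Nat.zero_add, hp0] at this
        exact huv'.trans this
  · refine ext_bic {u, v} {(u, v)} L p (by simp [hp0]) (by simp [hpL]) hint hinj ?_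
    intro w x hx y hy hxw hyw
    simp only [Finset.mem_insert, Finset.mem_singleton] at hx hy
    rcases hx with rfl | rfl <;> rcases hy with rfl | rfl
    · exact Relation.ReflTransGen.refl
    · exact Relation.ReflTransGen.single ⟨hxw, hyw, Or.inl (by simp)⟩
    · exact Relation.ReflTransGen.single ⟨hxw, hyw, Or.inr (by simp)⟩
    · exact Relation.ReflTransGen.refl
  · rw [card_W' _ L p hint hinj, Finset.card_pair hne]
    omega
  · rw [card_W' _ L p hint hinj, Finset.card_pair hne]
    have := card_B' ({(u, v)} : Finset (V × V)) L p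
    rw [Finset.card_singleton] at this
    omega

theorem grow (A : Finset (V × V)) (hS : Strong A)
    (hb : ∀ w, ∀ x y : V, x ≠ w → y ≠ w → R A w x y) (h : V) (k : ℕ) :
    ∀ W B, Good A h W B → Fintype.card V - W.card = k → ∃ B, Good A h Finset.univ B := by
  induction k using Nat.strong_induction_on with
  | _ k ih =>
    intro W B g hk
    by_cases hW : W = Finset.univ
    · subst hW; exact ⟨B, g⟩
    · obtain ⟨L, p, hL2, h0, hL, hint, hinj, harc⟩ := exists_ear A hS hb W g.two hW
      have g' := extend A h W B g L p hL2 h0 hL hint hinj harc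
      have hc := card_W' W L p hint hinj
      have hlt : W.card < Fintype.card V := by
        rw [← Finset.card_univ]
        exact Finset.card_lt_card (Finset.ssubset_univ_iff.2 hW)
      exact ih _ (by omega) _ _ g' rfl

/-- Every minimal strongly biconnected digraph on `n` vertices has at most `2n - 2` arcs; in
particular at most `2n` arcs. -/
theorem result {V : Type} [Fintype V] [DecidableEq V] (A : Finset (V × V))
    (hl : ∀ v : V, (v, v) ∉ A) (hA : MinimalSB A) : A.card ≤ 2 * Fintype.card V - 2 := by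
  obtain ⟨⟨hS, hb⟩, hmin⟩ := hA
  have hb' : ∀ w, ∀ x y : V, x ≠ w → y ≠ w → R A w x y := fun w => (bic_iff A hl w).1 (hb w)
  rcases Nat.lt_or_ge (Fintype.card V) 2 with hn | hn
  · have : A = ∅ := by
      rw [Finset.eq_empty_iff_forall_notMem]
      rintro ⟨x, y⟩ hxy
      have : x = y := by
        have := Fintype.card_le_one_iff.1 (by omega : Fintype.card V ≤ 1)
        exact this x y
      subst this
      exact hl _ hxy
    simp [this]
  · obtain ⟨h, W, B, g⟩ := start A hl hS hn
    obtain ⟨B, g⟩ := grow A hS hb' h _ W B g rfl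
    have hAB : A = B := by
      by_contra hne
      obtain ⟨e, he, heB⟩ : ∃ e ∈ A, e ∉ B := by
        by_contra hc
        push Not at hc
        exact hne (Finset.Subset.antisymm hc g.sub)
      have hsub : B ⊆ A.erase e := fun x hx =>
        Finset.mem_erase.2 ⟨fun h => heB (h ▸ hx), g.sub hx⟩
      refine hmin e he ⟨?_, ?_⟩
      · intro x y
        exact (rtg_mono hsub (g.str x (Finset.mem_univ _)).1).trans
          (rtg_mono hsub (g.str y (Finset.mem_univ _)).2)
      · intro w
        rw [bic_iff _ (fun v hv => hl v (Finset.mem_of_mem_erase hv))]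
        intro x y hx hy
        exact R_mono hsub w (g.bic w x (Finset.mem_univ _) y (Finset.mem_univ _) hx hy)
    have := g.cnt
    rw [← hAB, Finset.card_univ] at this
    omega

end Pool.Agent.Results.MP_5e4462_co.ArcBound
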