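import Mathlib

/-!
# Minimal strongly biconnected digraphs: the exact maximum number of arcs

For every `n ≥ 3` the maximum number of arcs of a minimal strongly biconnected digraph on `n`
vertices is `2 n - 3`; on `n ≤ 2` vertices it has at most `2 n` arcs.
-/

set_option autoImplicit false

open Relation

namespace Pool.Agent.Results.MP_5e4462_co.ExactMaximum

/-- `A` (the arc relation of a loopless digraph) is strongly biconnected: it is strongly connected
and its underlying simple graph has no articulation point, i.e. it stays connected after the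
deletion of any one vertex. -/
def StronglyBiconnected {V : Type} (A : V → V → Prop) : Prop :=
  (∀ u v, ReflTransGen A u v) ∧
    ∀ x : V, ((SimpleGraph.fromRel A).induce ({x}ᶜ : Set V)).Preconnected

/-- `A` is minimal strongly biconnected: it is strongly biconnected and deleting any arc `(u, v)`
destroys this. -/
def Minimal {V : Type} (A : V → V → Prop) : Prop :=
  StronglyBiconnected A ∧
    ∀ u v, A u v → ¬ StronglyBiconnected (fun a b => A a b ∧ ¬ (a = u ∧ b = v))

section Proof

variable {V : Type}

/-- adjacency in the underlying graph avoiding the vertex `z` -/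
def Sy (R : V → V → Prop) (z : V) (a b : V) : Prop := (R a b ∨ R b a) ∧ a ≠ z ∧ b ≠ z

theorem Sy.symm {R : V → V → Prop} {z a b : V} (h : Sy R z a b) : Sy R z b a :=
  ⟨h.1.symm, h.2.2, h.2.1⟩

theorem rtg_symm {R : V → V → Prop} {z a b : V} (h : ReflTransGen (Sy R z) a b) :
    ReflTransGen (Sy R z) b a := by
  induction h with
  | refl => exact .refl
  | tail _ h2 ih => exact ReflTransGen.head h2.symm ih

theorem Sy.mono {R R' : V → V → Prop} (hR : ∀ a b, R a b → R' a b) {z a b : V} (h : Sy R z a b) :
    Sy R' z a b := ⟨h.1.imp (hR _ _) (hR _ _), h.2⟩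

theorem rtg_mono {R R' : V → V → Prop} (hR : ∀ a b, R a b → R' a b) {a b : V}
    (h : ReflTransGen R a b) : ReflTransGen R' a b := by
  induction h with
  | refl => exact .refl
  | tail _ h2 ih => exact ih.tail (hR _ _ h2)

theorem exists_nodup {R : V → V → Prop} {a b : V} (h : ReflTransGen R a b) :
    ∃ l : List V, (a :: l).Nodup ∧ List.IsChain R (a :: l) ∧ (a :: l).getLast (by simp) = b := by
  classical
  induction h using ReflTransGen.head_induction_on with
  | refl => exact ⟨[], by simp, by simp, by simp⟩
  | head h1 h2 ih =>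
    rename_i a c
    obtain ⟨l, hn, hc, hl⟩ := ih
    by_cases ha : a ∈ c :: l
    · obtain ⟨l1, l2, h12⟩ := List.append_of_mem ha
      refine ⟨l2, ?_, ?_, ?_⟩
      · rw [h12] at hn
        exact (List.nodup_append.1 hn).2.1
      · rw [h12] at hc
        exact (List.isChain_append.1 hc).2.1
      · have : (c :: l).getLast (by simp) = (l1 ++ a :: l2).getLast (by simp) := by
          congr 1
        rw [List.getLast_append_of_ne_nil (by simp) (by simp)] at this
        rw [← this, hl]
    · refine ⟨c :: l, ?_, ?_, ?_⟩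
      · exact List.nodup_cons.2 ⟨ha, hn⟩
      · exact List.isChain_cons_cons.2 ⟨h1, hc⟩
      · rw [List.getLast_cons (by simp)]
        exact hl

/-- along a chain everything is reachable from the head -/
theorem chain_from_head {R : V → V → Prop} : ∀ (L : List V) (a : V), List.IsChain R (a :: L) →
    ∀ u ∈ a :: L, ReflTransGen R a u := by
  intro L
  induction L with
  | nil =>
    intro a _ u hu
    simp at hu
    subst hu
    exact .refl
  | cons b L ih =>
    intro a h u hu
    rw [List.isChain_cons_cons] at h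
    rcases List.mem_cons.1 hu with rfl | hu
    · exact .refl
    · exact ReflTransGen.head h.1 (ih b h.2 u hu)

theorem chain_to_last {R : V → V → Prop} (b : V) : ∀ (L : List V), List.IsChain R (L ++ [b]) →
    ∀ u ∈ L ++ [b], ReflTransGen R u b := by
  intro L
  induction L with
  | nil =>
    intro _ u hu
    simp at hu
    subst hu
    exact .refl
  | cons a L ih =>
    intro h u hu
    rw [List.cons_append] at h hu
    rcases List.mem_cons.1 hu with rfl | hu
    · cases L with
      | nil =>
        simp at h
        exact ReflTransGen.single h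
      | cons c L =>
        rw [List.cons_append, List.isChain_cons_cons] at h
        exact ReflTransGen.head h.1 (ih h.2 c (by simp))
    · have h' : List.IsChain R (L ++ [b]) := by
        have : a :: (L ++ [b]) = [a] ++ (L ++ [b]) := rfl
        rw [this] at h
        exact (List.isChain_append.1 h).2.1
      exact ih h' u hu

/-- a chain avoiding `z` is connected in the underlying graph minus `z` -/
theorem chain_sy {R : V → V → Prop} {z : V} (L : List V) (hc : List.IsChain R L) (hz : z ∉ L) :
    ∀ u ∈ L, ∀ v ∈ L, ReflTransGen (Sy R z) u v := by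
  have key : ∀ (L : List V) (a : V), List.IsChain R (a :: L) → z ∉ a :: L →
      ∀ u ∈ a :: L, ReflTransGen (Sy R z) a u := by
    intro L
    induction L with
    | nil =>
      intro a _ _ u hu
      simp at hu
      subst hu
      exact .refl
    | cons b L ih =>
      intro a h hz u hu
      rw [List.isChain_cons_cons] at h
      rcases List.mem_cons.1 hu with rfl | hu
      · exact .refl
      · refine ReflTransGen.head ⟨Or.inl h.1, ?_, ?_⟩ (ih b h.2 ?_ u hu)
        · rintro rfl; simp at hz
        · rintro rfl; simp at hz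
        · intro h; exact hz (List.mem_cons_of_mem _ h)
  cases L with
  | nil => intro u hu; simp at hu
  | cons a L =>
    intro u hu v hv
    exact (rtg_symm (key L a hc hz u hu)).trans (key L a hc hz v hv)

/-- consecutive pairs of a list -/
def prs : List V → List (V × V)
  | a :: b :: l => (a, b) :: prs (b :: l)
  | _ => []

theorem prs_length : ∀ (l : List V), (prs l).length = l.length - 1
  | [] => rfl
  | [_] => rfl
  | a :: b :: l => by
    have := prs_length (b :: l)
    simp only [prs, List.length_cons] at this ⊢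
    omega

theorem prs_chain {R : V → V → Prop} : ∀ (l : List V), (∀ e ∈ prs l, R e.1 e.2) → List.IsChain R l
  | [], _ => by simp
  | [_], _ => by simp
  | a :: b :: l, h => by
    rw [List.isChain_cons_cons]
    exact ⟨h (a, b) (by simp [prs]), prs_chain (b :: l) fun e he => h e (by simp [prs, he])⟩

theorem chain_prs {R : V → V → Prop} : ∀ (l : List V), List.IsChain R l → (∀ e ∈ prs l, R e.1 e.2)
  | [], _ => by simp [prs]
  | [_], _ => by simp [prs]
  | a :: b :: l, h => by
    rw [List.isChain_cons_cons] at h
    intro e he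
    simp only [prs, List.mem_cons] at he
    rcases he with rfl | he
    · exact h.1
    · exact chain_prs (b :: l) h.2 e he

theorem prs_mem : ∀ (l : List V), ∀ e ∈ prs l, e.1 ∈ l ∧ e.2 ∈ l
  | [] => by simp [prs]
  | [_] => by simp [prs]
  | a :: b :: l => by
    intro e he
    simp only [prs, List.mem_cons] at he
    rcases he with rfl | he
    · simp
    · have := prs_mem (b :: l) e he
      exact ⟨List.mem_cons_of_mem _ this.1, List.mem_cons_of_mem _ this.2⟩

variable [DecidableEq V]

/-- the part of the invariant preserved by adding an ear -/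
structure Part (A : V → V → Prop) (S : Finset V) (F : Finset (V × V)) : Prop where
  sub : ∀ e ∈ F, A e.1 e.2
  mem : ∀ e ∈ F, e.1 ∈ S ∧ e.2 ∈ S
  bic : ∀ z, ∀ u ∈ S, ∀ v ∈ S, u ≠ z → v ≠ z →
    ReflTransGen (Sy (fun a b => (a, b) ∈ F) z) u v

theorem ear {A : V → V → Prop} {S : Finset V} {F : Finset (V × V)} (h : Part A S F)
    {x y : V} (hx : x ∈ S) (hy : y ∈ S) (hxy : x ≠ y) (p : List V) (hp : p.Nodup)
    (hpS : ∀ w ∈ p, w ∉ S) (hc : List.IsChain A (x :: (p ++ [y]))) :
    ∃ F' : Finset (V × V), Part A (S ∪ p.toFinset) F' ∧ F ⊆ F' ∧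
      F'.card ≤ F.card + (p.length + 1) ∧
      List.IsChain (fun a b => (a, b) ∈ F') (x :: (p ++ [y])) := by
  set L := x :: (p ++ [y]) with hL
  refine ⟨F ∪ (prs L).toFinset, ?_, Finset.subset_union_left, ?_, ?_⟩
  swap
  · refine (Finset.card_union_le _ _).trans ?_
    have h1 := List.toFinset_card_le (prs L)
    have h2 := prs_length L
    have h3 : L.length = p.length + 2 := by rw [hL]; simp
    omega
  swap
  · exact prs_chain L fun e he => by simp [he]
  have hcF : List.IsChain (fun a b => (a, b) ∈ F ∪ (prs L).toFinset) L :=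
    prs_chain L fun e he => by simp [he]
  have hLS : ∀ w ∈ L, w ∈ S ∪ p.toFinset := by
    intro w hw
    rw [hL] at hw
    simp only [List.mem_cons, List.mem_append, List.not_mem_nil, or_false] at hw
    rw [Finset.mem_union, List.mem_toFinset]
    rcases hw with rfl | hw | rfl
    · exact Or.inl hx
    · exact Or.inr hw
    · exact Or.inl hy
  have hinf : ∀ (L1 L2 L3 : List V), L = L1 ++ L2 ++ L3 →
      List.IsChain (fun a b => (a, b) ∈ F ∪ (prs L).toFinset) L2 := by
    intro L1 L2 L3 h4
    rw [h4] at hcF
    have := (List.isChain_append.1 hcF).1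
    rw [← h4] at this
    exact (List.isChain_append.1 this).2.1
  refine ⟨?_, ?_, ?_⟩
  · intro e he
    rcases Finset.mem_union.1 he with he | he
    · exact h.sub e he
    · exact chain_prs L hc e (List.mem_toFinset.1 he)
  · intro e he
    rcases Finset.mem_union.1 he with he | he
    · have := h.mem e he
      exact ⟨Finset.mem_union_left _ this.1, Finset.mem_union_left _ this.2⟩
    · have := prs_mem L e (List.mem_toFinset.1 he)
      exact ⟨hLS _ this.1, hLS _ this.2⟩
  · intro z
    -- every vertex of the new set is connected to a vertex of `S` different from `z`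
    have key : ∀ u ∈ S ∪ p.toFinset, u ≠ z → ∃ s ∈ S, s ≠ z ∧
        ReflTransGen (Sy (fun a b => (a, b) ∈ F ∪ (prs L).toFinset) z) u s := by
      intro u hu huz
      rcases Finset.mem_union.1 hu with hu | hu
      · exact ⟨u, hu, huz, .refl⟩
      rw [List.mem_toFinset] at hu
      by_cases hzp : z ∈ p
      · have hzS := hpS z hzp
        obtain ⟨l1, l2, h12⟩ := List.append_of_mem hzp
        have hnd : z ∉ l1 ∧ z ∉ l2 := by
          rw [h12, List.nodup_append] at hp
          refine ⟨fun h3 => ?_, fun h3 => ?_⟩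
          · exact hp.2.2 z h3 z (by simp) rfl
          · exact (List.nodup_cons.1 hp.2.1).1 h3
        rw [h12] at hu
        rcases List.mem_append.1 hu with hu | hu
        · refine ⟨x, hx, fun h3 => hzS (h3 ▸ hx), ?_⟩
          refine chain_sy (x :: l1) (hinf [] (x :: l1) (z :: l2 ++ [y]) ?_) ?_ u
            (List.mem_cons_of_mem _ hu) x (by simp)
          · rw [hL, h12]; simp
          · rw [List.mem_cons]
            rintro (h3 | h3)
            · exact hzS (h3 ▸ hx)
            · exact hnd.1 h3
        · rcases List.mem_cons.1 hu with hu | hu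
          · exact absurd hu huz
          refine ⟨y, hy, fun h3 => hzS (h3 ▸ hy), ?_⟩
          refine chain_sy (l2 ++ [y]) (hinf (x :: (l1 ++ [z])) (l2 ++ [y]) [] ?_) ?_ u
            (List.mem_append_left _ hu) y (by simp)
          · rw [hL, h12]; simp
          · rw [List.mem_append, List.mem_singleton]
            rintro (h3 | h3)
            · exact hnd.2 h3
            · exact hzS (h3 ▸ hy)
      · by_cases hxz : x = z
        · subst hxz
          refine ⟨y, hy, hxy.symm, ?_⟩
          refine chain_sy (p ++ [y]) (hinf [x] (p ++ [y]) [] ?_) ?_ u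
            (List.mem_append_left _ hu) y (by simp)
          · rw [hL]; simp
          · rw [List.mem_append, List.mem_singleton]
            rintro (h3 | h3)
            · exact hzp h3
            · exact hxy h3
        · refine ⟨x, hx, hxz, ?_⟩
          refine chain_sy (x :: p) (hinf [] (x :: p) [y] ?_) ?_ u
            (List.mem_cons_of_mem _ hu) x (by simp)
          · rw [hL]; simp
          · rw [List.mem_cons]
            rintro (h3 | h3)
            · exact hxz h3.symm
            · exact hzp h3
    intro u hu v hv huz hvz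
    obtain ⟨s, hs, hsz, h1⟩ := key u hu huz
    obtain ⟨t, ht, htz, h2⟩ := key v hv hvz
    have h3 := h.bic z s hs t ht hsz htz
    have h4 : ReflTransGen (Sy (fun a b => (a, b) ∈ F ∪ (prs L).toFinset) z) s t :=
      rtg_mono (fun a b hab => Sy.mono (fun a b h => Finset.mem_union_left _ h) hab) h3
    exact (h1.trans h4).trans (rtg_symm h2)

/-- in a strongly biconnected digraph every proper vertex set with at least two vertices has an
open ear -/
theorem exists_open {A : V → V → Prop} (hs : ∀ u v, ReflTransGen A u v)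
    (hb : ∀ z u v, u ≠ z → v ≠ z → ReflTransGen (Sy A z) u v) {S : Finset V}
    (hS2 : ∀ x, ∃ y ∈ S, y ≠ x) (hS : ∃ w, w ∉ S) :
    ∃ x ∈ S, ∃ y ∈ S, x ≠ y ∧ ∃ p : List V, p ≠ [] ∧ p.Nodup ∧ (∀ w ∈ p, w ∉ S) ∧
      List.IsChain A (x :: (p ++ [y])) := by
  set B : V → V → Prop := fun a b => A a b ∧ a ∉ S ∧ b ∉ S with hB
  -- last exit from S
  have hexit : ∀ q, q ∉ S → ∃ y ∈ S, ∃ c, c ∉ S ∧ A y c ∧ ReflTransGen B c q := by
    intro q hq
    obtain ⟨s, hsS, -⟩ := hS2 q
    have h1 := hs s q
    induction h1 with
    | refl => exact absurd hsS hq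
    | tail h2 h3 ih =>
      rename_i b c
      by_cases hbS : b ∈ S
      · exact ⟨b, hbS, c, hq, h3, .refl⟩
      · obtain ⟨y, hy, d, hd, h4, h5⟩ := ih hbS
        exact ⟨y, hy, d, hd, h4, h5.tail ⟨h3, hbS, hq⟩⟩
  have henter : ∀ q, q ∉ S → ∃ y ∈ S, ∃ c, c ∉ S ∧ A c y ∧ ReflTransGen B q c := by
    intro q hq
    obtain ⟨s, hsS, -⟩ := hS2 q
    have h1 := hs q s
    induction h1 using ReflTransGen.head_induction_on with
    | refl => exact absurd hsS hq
    | head h3 h2 ih =>
      rename_i b c
      by_cases hcS : c ∈ S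
      · exact ⟨c, hcS, b, hq, h3, .refl⟩
      · obtain ⟨y, hy, d, hd, h4, h5⟩ := ih hcS
        exact ⟨y, hy, d, hd, h4, h5.head ⟨h3, hq, hcS⟩⟩
  obtain ⟨x, hx, y, hy, hxy, a, ha, b, hxa, hab, hby⟩ : ∃ x ∈ S, ∃ y ∈ S, x ≠ y ∧ ∃ a, a ∉ S ∧
      ∃ b, A x a ∧ ReflTransGen B a b ∧ A b y := by
    by_contra hcon
    push Not at hcon
    have hcon' : ∀ x ∈ S, ∀ y ∈ S, ∀ a, a ∉ S → ∀ b, A x a → ReflTransGen B a b → A b y → x = y := by
      intro x hx y hy a ha b h1 h2 h3
      by_contra hne
      exact hcon x hx y hy hne a ha b h1 h2 h3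
    obtain ⟨w, hw⟩ := hS
    obtain ⟨x, hx, a, ha, hxa, -⟩ := hexit w hw
    obtain ⟨s, hsS, hsx⟩ := hS2 x
    have hax : a ≠ x := fun h => ha (h ▸ hx)
    have h1 := hb x a s hax hsx
    -- `W` = vertices reachable from `x` outside `S`
    have key : ∀ q, ReflTransGen (Sy A x) a q → q ∉ S ∧ ∃ c, c ∉ S ∧ A x c ∧ ReflTransGen B c q := by
      intro q hq
      induction hq with
      | refl => exact ⟨ha, a, ha, hxa, .refl⟩
      | tail h2 h3 ih =>
        rename_i p q
        obtain ⟨hpS, c, hc, hxc, hcp⟩ := ih
        obtain ⟨h4, hpx, hqx⟩ := h3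
        rcases h4 with h4 | h4
        · have hqS : q ∉ S := by
            intro hqS
            exact hqx (hcon' x hx q hqS c hc p hxc hcp h4).symm
          exact ⟨hqS, c, hc, hxc, hcp.tail ⟨h4, hpS, hqS⟩⟩
        · obtain ⟨y, hy, d, hd, hdy, hpd⟩ := henter p hpS
          have hyx : x = y := hcon' x hx y hy c hc d hxc (hcp.trans hpd) hdy
          subst hyx
          have hqS : q ∉ S := by
            intro hqS
            exact hqx (hcon' q hqS x hy p hpS d h4 hpd hdy)
          obtain ⟨y', hy', c', hc', hy'c', hc'q⟩ := hexit q hqS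
          have : y' = x := hcon' y' hy' x hy c' hc' d hy'c'
            ((hc'q.tail ⟨h4, hqS, hpS⟩).trans hpd) hdy
          subst this
          exact ⟨hqS, c', hc', hy'c', hc'q⟩
    exact (key s h1).1 hsS
  obtain ⟨l, hn, hc, hl⟩ := exists_nodup hab
  have hmem : ∀ w ∈ a :: l, w ∉ S := by
    intro w hw
    have h1 := chain_from_head l a hc w hw
    rcases ReflTransGen.cases_tail h1 with h2 | ⟨c, -, h2⟩
    · rw [h2]; exact ha
    · exact h2.2.2
  refine ⟨x, hx, y, hy, hxy, a :: l, by simp, hn, hmem, ?_⟩
  rw [List.cons_append, List.isChain_cons_cons]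
  refine ⟨hxa, ?_⟩
  have hc' : List.IsChain A (a :: l) := hc.imp fun a b h => h.1
  rw [← List.cons_append, List.isChain_append]
  refine ⟨hc', by simp, ?_⟩
  intro u hu v hv
  simp at hv
  subst hv
  rw [List.getLast?_eq_getLast_of_ne_nil (by simp)] at hu
  simp only [Option.mem_def, Option.some.injEq] at hu
  rw [← hu, hl]
  exact hby

theorem pre_iff (A : V → V → Prop) (z : V) :
    ((SimpleGraph.fromRel A).induce ({z}ᶜ : Set V)).Preconnected ↔
      ∀ u v, u ≠ z → v ≠ z → ReflTransGen (Sy A z) u v := by
  constructor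
  · intro h u v hu hv
    have h1 := h ⟨u, hu⟩ ⟨v, hv⟩
    rw [SimpleGraph.reachable_iff_reflTransGen] at h1
    have key : ∀ w : ({z}ᶜ : Set V),
        ReflTransGen ((SimpleGraph.fromRel A).induce ({z}ᶜ : Set V)).Adj ⟨u, hu⟩ w →
        ReflTransGen (Sy A z) u w.1 := by
      intro w hw
      induction hw with
      | refl => exact .refl
      | @tail b c _ h2 ih =>
        refine ih.tail ⟨?_, b.2, c.2⟩
        rw [SimpleGraph.comap_adj, SimpleGraph.fromRel_adj] at h2
        exact h2.2
    exact key _ h1
  · rintro h ⟨u, hu⟩ ⟨v, hv⟩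
    have h1 := h u v hu hv
    have key : ∀ w, ReflTransGen (Sy A z) u w → ∀ hw : w ∈ ({z}ᶜ : Set V),
        ((SimpleGraph.fromRel A).induce ({z}ᶜ : Set V)).Reachable ⟨u, hu⟩ ⟨w, hw⟩ := by
      intro w hw
      induction hw with
      | refl => intro _; exact SimpleGraph.Reachable.refl _
      | @tail b c _ h2 ih =>
        intro hc
        refine (ih h2.2.1).trans ?_
        by_cases hbc : b = c
        · subst hbc
          exact SimpleGraph.Reachable.refl _
        · apply SimpleGraph.Adj.reachable
          rw [SimpleGraph.comap_adj, SimpleGraph.fromRel_adj]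
          exact ⟨hbc, h2.1⟩
    exact key v h1 hv

theorem sb_iff (A : V → V → Prop) : StronglyBiconnected A ↔
    (∀ u v, ReflTransGen A u v) ∧ ∀ z u v, u ≠ z → v ≠ z → ReflTransGen (Sy A z) u v := by
  unfold StronglyBiconnected
  simp only [pre_iff]

theorem sb_mono {R R' : V → V → Prop} (hR : ∀ a b, R a b → R' a b)
    (h : StronglyBiconnected R) : StronglyBiconnected R' := by
  rw [sb_iff] at h ⊢
  exact ⟨fun u v => rtg_mono hR (h.1 u v), fun z u v hu hv =>
    rtg_mono (fun a b hab => Sy.mono hR hab) (h.2 z u v hu hv)⟩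

/-- a first cycle with at least three vertices, cut open at one arc -/
theorem exists_cycle [Fintype V] {A : V → V → Prop} (hloop : ∀ v, ¬ A v v)
    (hs : ∀ u v, ReflTransGen A u v)
    (hb : ∀ z u v, u ≠ z → v ≠ z → ReflTransGen (Sy A z) u v) (hn : 3 ≤ Fintype.card V) :
    ∃ u v, A u v ∧ u ≠ v ∧ ∃ p : List V, p ≠ [] ∧ p.Nodup ∧ u ∉ p ∧ v ∉ p ∧
      List.IsChain A (v :: (p ++ [u])) := by
  obtain ⟨x, y, hxy⟩ := Fintype.exists_pair_of_one_lt_card (α := V) (by omega)
  obtain ⟨c, hxc⟩ : ∃ c, A x c := by
    rcases ReflTransGen.cases_head (hs x y) with h | ⟨c, h, -⟩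
    · exact absurd h hxy
    · exact ⟨c, h⟩
  have hne : x ≠ c := by rintro rfl; exact hloop _ hxc
  obtain ⟨l, hnd, hc, hl⟩ := exists_nodup (hs c x)
  have hl0 : l ≠ [] := by
    rintro rfl
    simp at hl
    exact hne hl.symm
  have hll : l.getLast hl0 = x := by
    rw [← hl, List.getLast_cons hl0]
  have hl' : l = l.dropLast ++ [x] := by
    conv_lhs => rw [← List.dropLast_append_getLast hl0, hll]
  set p := l.dropLast with hp
  rw [hl'] at hnd hc
  by_cases hp0 : p = []
  · rw [hp0] at hc
    simp at hc
    have hS : ∃ w, w ∉ ({x, c} : Finset V) := by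
      by_contra hcon
      push Not at hcon
      have h1 : (Finset.univ : Finset V) ⊆ {x, c} := fun w _ => hcon w
      have h2 := Finset.card_le_card h1
      have h3 : ({x, c} : Finset V).card ≤ 2 := Finset.card_le_two
      rw [Finset.card_univ] at h2
      omega
    obtain ⟨x', hx', y', hy', hxy', q, hq0, hqn, hqS, hqc⟩ := exists_open hs hb
      (S := {x, c}) (by
        intro w
        by_cases hw : w = x
        · exact ⟨c, by simp, by rw [hw]; exact hne.symm⟩
        · exact ⟨x, by simp, fun h => hw h.symm⟩) hS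
    have hA : A y' x' := by
      simp only [Finset.mem_insert, Finset.mem_singleton] at hx' hy'
      rcases hx' with rfl | rfl <;> rcases hy' with rfl | rfl
      · exact absurd rfl hxy'
      · exact hc
      · exact hxc
      · exact absurd rfl hxy'
    exact ⟨y', x', hA, hxy'.symm, q, hq0, hqn, fun h => hqS _ h hy', fun h => hqS _ h hx', hqc⟩
  · refine ⟨x, c, hxc, hne, p, hp0, ?_, ?_, ?_, hc⟩
    · exact (List.nodup_append.1 (List.nodup_cons.1 hnd).2).1
    · intro h
      exact (List.nodup_append.1 (List.nodup_cons.1 hnd).2).2.2 x h x (by simp) rfl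
    · intro h
      exact (List.nodup_cons.1 hnd).1 (by simp [h])

theorem grow [Fintype V] {A : V → V → Prop}
    (hs : ∀ u v, ReflTransGen A u v)
    (hb : ∀ z u v, u ≠ z → v ≠ z → ReflTransGen (Sy A z) u v) :
    ∀ (k : ℕ) (S : Finset V) (F : Finset (V × V)), Part A S F →
      (∀ u ∈ S, ∀ v ∈ S, ReflTransGen (fun a b => (a, b) ∈ F) u v) → F.card + 3 ≤ 2 * S.card →
      Fintype.card V - S.card ≤ k →
      ∃ F' : Finset (V × V), Part A Finset.univ F' ∧
        (∀ u v, ReflTransGen (fun a b => (a, b) ∈ F') u v) ∧ F'.card + 3 ≤ 2 * Fintype.card V := by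
  intro k
  induction k with
  | zero =>
    intro S F h1 h2 h3 h4
    have h5 : S = Finset.univ := by
      apply Finset.eq_univ_of_card
      have := Finset.card_le_univ S
      omega
    subst h5
    exact ⟨F, h1, fun u v => h2 u (Finset.mem_univ _) v (Finset.mem_univ _), by
      rwa [Finset.card_univ] at h3⟩
  | succ k ih =>
    intro S F h1 h2 h3 h4
    by_cases hS : ∃ w, w ∉ S
    · have hS2 : ∀ x, ∃ y ∈ S, y ≠ x := by
        intro x
        by_contra hcon
        push Not at hcon
        have h5 : S ⊆ {x} := fun y hy => by rw [hcon y hy]; simp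
        have h6 := Finset.card_le_card h5
        rw [Finset.card_singleton] at h6
        omega
      obtain ⟨x, hx, y, hy, hxy, p, hp0, hpn, hpS, hpc⟩ := exists_open hs hb hS2 hS
      obtain ⟨F', hF1, hF2, hF3, hF4⟩ := ear h1 hx hy hxy p hpn hpS hpc
      have hcard : (S ∪ p.toFinset).card = S.card + p.length := by
        rw [Finset.card_union_of_disjoint, List.toFinset_card_of_nodup hpn]
        rw [Finset.disjoint_left]
        intro w hw hw2
        exact hpS w (List.mem_toFinset.1 hw2) hw
      have hpl : 1 ≤ p.length := List.length_pos_iff.2 hp0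
      refine ih (S ∪ p.toFinset) F' hF1 ?_ ?_ ?_
      · have hcx : ∀ u ∈ S ∪ p.toFinset, ReflTransGen (fun a b => (a, b) ∈ F') u y := by
          intro u hu
          rcases Finset.mem_union.1 hu with hu | hu
          · exact rtg_mono (fun a b h => hF2 h) (h2 u hu y hy)
          · have h5 : x :: (p ++ [y]) = (x :: p) ++ [y] := rfl
            rw [h5] at hF4
            exact chain_to_last y (x :: p) hF4 u
              (by simp [List.mem_toFinset.1 hu])
        have hcy : ∀ u ∈ S ∪ p.toFinset, ReflTransGen (fun a b => (a, b) ∈ F') x u := by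
          intro u hu
          rcases Finset.mem_union.1 hu with hu | hu
          · exact rtg_mono (fun a b h => hF2 h) (h2 x hx u hu)
          · exact chain_from_head _ x hF4 u (by simp [List.mem_toFinset.1 hu])
        intro u hu v hv
        exact ((hcx u hu).trans (rtg_mono (fun a b h => hF2 h) (h2 y hy x hx))).trans (hcy v hv)
      · rw [hcard]
        omega
      · rw [hcard]
        omega
    · push Not at hS
      have h5 : S = Finset.univ := Finset.eq_univ_iff_forall.2 hS
      subst h5
      exact ⟨F, h1, fun u v => h2 u (Finset.mem_univ _) v (Finset.mem_univ _), by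
        rwa [Finset.card_univ] at h3⟩

theorem bound [Fintype V] {A : V → V → Prop} (hloop : ∀ v, ¬ A v v) (hA : Minimal A)
    (hn : 3 ≤ Fintype.card V) : Nat.card {e : V × V // A e.1 e.2} ≤ 2 * Fintype.card V - 3 := by
  obtain ⟨h1, h2⟩ := hA
  have h1' := (sb_iff A).1 h1
  obtain ⟨hs, hb⟩ := h1'
  obtain ⟨u, v, huv, hne, p, hp0, hpn, hup, hvp, hpc⟩ := exists_cycle hloop hs hb hn
  have hpl : 1 ≤ p.length := List.length_pos_iff.2 hp0
  have hpart : Part A {u, v} {(u, v)} := by
    refine ⟨?_, ?_, ?_⟩
    · intro e he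
      rw [Finset.mem_singleton] at he
      subst he
      exact huv
    · intro e he
      rw [Finset.mem_singleton] at he
      subst he
      simp
    · intro z a ha b hb' haz hbz
      simp only [Finset.mem_insert, Finset.mem_singleton] at ha hb'
      rcases ha with rfl | rfl <;> rcases hb' with rfl | rfl
      · exact .refl
      · exact ReflTransGen.single ⟨Or.inl (by simp), haz, hbz⟩
      · exact ReflTransGen.single ⟨Or.inr (by simp), haz, hbz⟩
      · exact .refl
  obtain ⟨F, hF1, hF2, hF3, hF4⟩ := ear hpart (x := v) (y := u) (by simp) (by simp) hne.symm p hpn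
    (by
      intro w hw
      simp only [Finset.mem_insert, Finset.mem_singleton, not_or]
      exact ⟨fun h => hup (h ▸ hw), fun h => hvp (h ▸ hw)⟩) hpc
  have hcard : (({u, v} : Finset V) ∪ p.toFinset).card = 2 + p.length := by
    rw [Finset.card_union_of_disjoint, List.toFinset_card_of_nodup hpn, Finset.card_pair hne]
    rw [Finset.disjoint_left]
    intro w hw hw2
    simp only [Finset.mem_insert, Finset.mem_singleton] at hw
    rcases hw with rfl | rfl
    · exact hup (List.mem_toFinset.1 hw2)
    · exact hvp (List.mem_toFinset.1 hw2)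
  rw [Finset.card_singleton] at hF3
  obtain ⟨G, hG1, hG2, hG3⟩ := grow hs hb (Fintype.card V) _ F hF1 (by
    have h5 : v :: (p ++ [u]) = (v :: p) ++ [u] := rfl
    have hmem : ∀ w ∈ ({u, v} : Finset V) ∪ p.toFinset, w ∈ v :: (p ++ [u]) := by
      intro w hw
      simp only [Finset.mem_union, Finset.mem_insert, Finset.mem_singleton, List.mem_toFinset] at hw
      simp only [List.mem_cons, List.mem_append, List.not_mem_nil, or_false]
      tauto
    intro a ha b hb'
    have h6 := chain_from_head _ v hF4 b (hmem b hb')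
    have h7 := chain_to_last u (v :: p) (h5 ▸ hF4) a (hmem a ha)
    exact (h7.tail (hF2 (by simp))).trans h6) (by rw [hcard]; omega) (by omega)
  have hsb : StronglyBiconnected (fun a b => (a, b) ∈ G) := by
    rw [sb_iff]
    exact ⟨hG2, fun z a b => hG1.bic z a (Finset.mem_univ _) b (Finset.mem_univ _)⟩
  have hall : ∀ a b, A a b → (a, b) ∈ G := by
    intro a b hab
    by_contra hcon
    refine h2 a b hab (sb_mono ?_ hsb)
    intro c d hcd
    refine ⟨hG1.sub _ hcd, ?_⟩
    rintro ⟨rfl, rfl⟩
    exact hcon hcd
  have hle : Nat.card {e : V × V // A e.1 e.2} ≤ G.card := by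
    have h8 : Nat.card G = G.card := by rw [Nat.card_eq_fintype_card, Fintype.card_coe]
    rw [← h8]
    refine Nat.card_le_card_of_injective
      (fun e : {e : V × V // A e.1 e.2} => (⟨e.1, hall _ _ e.2⟩ : G)) ?_
    intro e e' h
    simpa [Subtype.ext_iff] using h
  omega

end Proof

/-- the extremal example: arcs `0 → 1`, and `1 → i → 0` for all `i ≥ 2` -/
def Ex (m : ℕ) (a b : Fin (m + 3)) : Prop :=
  (a.val = 0 ∧ b.val = 1) ∨ (a.val = 1 ∧ 2 ≤ b.val) ∨ (2 ≤ a.val ∧ b.val = 0)

theorem ex_loop (m : ℕ) (v : Fin (m + 3)) : ¬ Ex m v v := by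
  unfold Ex
  omega

theorem ex_sb (m : ℕ) : StronglyBiconnected (Ex m) := by
  rw [sb_iff]
  have h01 : Ex m 0 1 := Or.inl ⟨rfl, rfl⟩
  constructor
  · have h0 : ∀ u, ReflTransGen (Ex m) u 0 := by
      intro u
      rcases Nat.lt_or_ge u.val 2 with h | h
      · rcases Nat.lt_or_ge u.val 1 with h' | h'
        · have : u = 0 := Fin.ext (show u.val = 0 by omega)
          subst this
          exact .refl
        · have h2 : Ex m u ⟨2, by omega⟩ := Or.inr (Or.inl ⟨by omega, le_refl _⟩)
          exact ReflTransGen.head h2 (ReflTransGen.single (Or.inr (Or.inr ⟨le_refl _, rfl⟩)))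
      · exact ReflTransGen.single (Or.inr (Or.inr ⟨h, rfl⟩))
    have h1 : ∀ u, ReflTransGen (Ex m) 0 u := by
      intro u
      rcases Nat.lt_or_ge u.val 2 with h | h
      · rcases Nat.lt_or_ge u.val 1 with h' | h'
        · have : u = 0 := Fin.ext (show u.val = 0 by omega)
          subst this
          exact .refl
        · exact ReflTransGen.single (Or.inl ⟨rfl, by omega⟩)
      · exact ReflTransGen.head h01 (ReflTransGen.single (Or.inr (Or.inl ⟨rfl, h⟩)))
    exact fun u v => (h0 u).trans (h1 v)
  · intro z
    obtain ⟨c, hcz, hc⟩ : ∃ c, c ≠ z ∧ ∀ u, u ≠ z → ReflTransGen (Sy (Ex m) z) u c := by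
      by_cases hz : z = 0
      · subst hz
        refine ⟨1, by simp, fun u hu => ?_⟩
        by_cases h1 : u = 1
        · rw [h1]
        · refine ReflTransGen.single ⟨Or.inr (Or.inr (Or.inl ⟨rfl, ?_⟩)), hu, by simp⟩
          have h2 : u.val ≠ 0 := fun h => hu (by ext; simpa using h)
          have h3 : u.val ≠ 1 := fun h => h1 (by ext; simpa using h)
          omega
      · refine ⟨0, fun h => hz h.symm, fun u hu => ?_⟩
        by_cases h1 : u = 0
        · rw [h1]
        · have h2 : u.val ≠ 0 := fun h => h1 (by ext; simpa using h)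
          rcases Nat.lt_or_ge u.val 2 with h | h
          · exact ReflTransGen.single ⟨Or.inr (Or.inl ⟨rfl, by omega⟩), hu, fun h => hz h.symm⟩
          · exact ReflTransGen.single ⟨Or.inl (Or.inr (Or.inr ⟨h, rfl⟩)), hu, fun h => hz h.symm⟩
    intro u v hu hv
    exact (hc u hu).trans (rtg_symm (hc v hv))

theorem ex_min (m : ℕ) : Minimal (Ex m) := by
  refine ⟨ex_sb m, ?_⟩
  intro u v huv h
  have hs := h.1
  rcases huv with ⟨h1, h2⟩ | ⟨h1, h2⟩ | ⟨h1, h2⟩
  · rcases ReflTransGen.cases_head (hs 0 1) with h3 | ⟨c, h3, -⟩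
    · simp at h3
    · obtain ⟨h4, h5⟩ := h3
      apply h5
      have h6 : c.val = 1 := by
        rcases h4 with h4 | h4 | h4
        · exact h4.2
        · simp at h4
        · simp at h4
      exact ⟨by ext; simp [h1], by ext; omega⟩
  · have hne : (0 : Fin (m + 3)) ≠ v := by
      rintro rfl
      simp at h2
    rcases ReflTransGen.cases_tail (hs 0 v) with h3 | ⟨c, -, h3⟩
    · exact hne h3.symm
    · obtain ⟨h4, h5⟩ := h3
      apply h5
      refine ⟨?_, rfl⟩
      ext
      unfold Ex at h4
      omega
  · have hne : u ≠ (0 : Fin (m + 3)) := by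
      rintro rfl
      simp at h1
    rcases ReflTransGen.cases_head (hs u 0) with h3 | ⟨c, h3, -⟩
    · exact hne h3
    · obtain ⟨h4, h5⟩ := h3
      apply h5
      refine ⟨rfl, ?_⟩
      ext
      unfold Ex at h4
      omega

theorem ex_card (m : ℕ) :
    2 * m + 3 ≤ Nat.card {e : Fin (m + 3) × Fin (m + 3) // Ex m e.1 e.2} := by
  have h1 : Nat.card (Unit ⊕ Fin (m + 1) ⊕ Fin (m + 1)) = 2 * m + 3 := by
    simp [Nat.card_eq_fintype_card]
    omega
  rw [← h1]
  refine Nat.card_le_card_of_injective (fun x : Unit ⊕ Fin (m + 1) ⊕ Fin (m + 1) =>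
    (match x with
      | Sum.inl _ => ⟨(0, 1), Or.inl ⟨rfl, rfl⟩⟩
      | Sum.inr (Sum.inl i) => ⟨(1, ⟨i.val + 2, by omega⟩), Or.inr (Or.inl ⟨rfl, by simp⟩)⟩
      | Sum.inr (Sum.inr i) => ⟨(⟨i.val + 2, by omega⟩, 0), Or.inr (Or.inr ⟨by simp, rfl⟩)⟩ :
      {e : Fin (m + 3) × Fin (m + 3) // Ex m e.1 e.2})) ?_
  rintro (x | x | x) (y | y | y) h <;> have h' := congrArg Subtype.val h <;>
    simp only [Prod.mk.injEq, Fin.ext_iff, Fin.val_zero, Fin.val_one] at h'
  · rfl
  · exact absurd h'.1 (by simp)
  · exact absurd h'.1.symm (by simp)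
  · exact absurd h'.1.symm (by simp)
  · congr 2
    ext
    omega
  · exact absurd h'.2 (by simp)
  · exact absurd h'.1 (by simp)
  · exact absurd h'.2.symm (by simp)
  · congr 2
    ext
    omega

/-- **Result.** Every minimal strongly biconnected digraph on a finite vertex set has at most twice
as many arcs as vertices; and for every `n ≥ 3` the largest number of arcs of a minimal strongly
biconnected digraph on `n` vertices is exactly `2 n - 3`. -/
theorem result :
    (∀ (V : Type) [Finite V] (A : V → V → Prop), (∀ v, ¬ A v v) → Minimal A →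
      Nat.card {e : V × V // A e.1 e.2} ≤ 2 * Nat.card V) ∧
    ∀ n : ℕ, 3 ≤ n → IsGreatest {m : ℕ | ∃ A : Fin n → Fin n → Prop, (∀ v, ¬ A v v) ∧ Minimal A ∧
      Nat.card {e : Fin n × Fin n // A e.1 e.2} = m} (2 * n - 3) := by
  constructor
  · intro V _ A hloop hA
    classical
    have := Fintype.ofFinite V
    rw [Nat.card_eq_fintype_card (α := V)]
    rcases Nat.lt_or_ge (Fintype.card V) 3 with h | h
    · have h1 : Nat.card {e : V × V // A e.1 e.2} ≤ Nat.card {e : V × V // e.1 ≠ e.2} := by
        refine Nat.card_le_card_of_injective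
          (fun e : {e : V × V // A e.1 e.2} => (⟨e.1, fun h => hloop e.1.1 (by
            have := e.2
            rwa [← h] at this)⟩ : {e : V × V // e.1 ≠ e.2})) ?_
        intro e e' h
        simpa [Subtype.ext_iff] using h
      have h2 : Nat.card {e : V × V // e.1 ≠ e.2} ≤ Fintype.card V * Fintype.card V -
          Fintype.card V := by
        rw [Nat.card_eq_fintype_card, Fintype.card_subtype]
        have h3 : (Finset.univ.filter fun e : V × V => e.1 ≠ e.2) =
            (Finset.univ : Finset V).offDiag := by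
          ext e
          simp [Finset.mem_offDiag]
        rw [h3, Finset.offDiag_card, Finset.card_univ]
      have h4 : Fintype.card V * Fintype.card V - Fintype.card V ≤ 2 * Fintype.card V := by
        generalize Fintype.card V = n at h
        interval_cases n <;> simp
      omega
    · have := bound hloop hA h
      omega
  · intro n hn
    obtain ⟨m, rfl⟩ : ∃ m, n = m + 3 := ⟨n - 3, by omega⟩
    constructor
    · refine ⟨Ex m, ex_loop m, ex_min m, ?_⟩
      have h1 := bound (ex_loop m) (ex_min m) (by simp)
      have h2 := ex_card m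
      rw [Fintype.card_fin] at h1
      omega
    · rintro k ⟨A, hloop, hA, rfl⟩
      have := bound hloop hA (by simp)
      rwa [Fintype.card_fin] at this

end Pool.Agent.Results.MP_5e4462_co.ExactMaximum
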